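import Mathlib

/-!
# Point sets with a rotational symmetry: lines at a given distance from the centre
-/

set_option autoImplicit false

namespace Pool.Agent.R117.KR

open Finset

/-- the real linear functional `z ↦ Re (z * conj v)` -/
noncomputable def psi (v z : ℂ) : ℝ := (z * (starRingEnd ℂ) v).re

/-- the root of unity of the rotation of order `m` -/
noncomputable def zt (m : ℕ) : ℂ := Complex.exp (2 * Real.pi * Complex.I / m)

lemma zt_pow (m k : ℕ) : zt m ^ k = Complex.exp (((2 * Real.pi * k / m : ℝ) : ℂ) * Complex.I) := by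
  unfold zt
  rw [← Complex.exp_nat_mul]
  congr 1
  push_cast
  ring

/-- the functional in polar coordinates -/
lemma psi_exp (u z : ℂ) (t : ℝ) (hu : ‖u‖ = 1) :
    psi u (Complex.exp ((t : ℂ) * Complex.I) * z) =
      ‖z‖ * Real.cos (Complex.arg z - Complex.arg u + t) := by
  have h1 : z = (‖z‖ : ℂ) * Complex.exp ((Complex.arg z : ℂ) * Complex.I) :=
    (Complex.norm_mul_exp_arg_mul_I z).symm
  have h2 : u = Complex.exp ((Complex.arg u : ℂ) * Complex.I) := by
    have := (Complex.norm_mul_exp_arg_mul_I u).symm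
    rw [hu] at this
    simpa using this
  have h3 : (starRingEnd ℂ) u = Complex.exp ((-(Complex.arg u) : ℂ) * Complex.I) := by
    conv_lhs => rw [h2]
    rw [← Complex.exp_conj]
    congr 1
    simp
  unfold psi
  rw [h3]
  conv_lhs => rw [h1]
  have h4 : Complex.exp ((t : ℂ) * Complex.I) *
      ((‖z‖ : ℂ) * Complex.exp ((Complex.arg z : ℂ) * Complex.I)) *
      Complex.exp ((-(Complex.arg u) : ℂ) * Complex.I) =
      (‖z‖ : ℂ) * Complex.exp (((Complex.arg z - Complex.arg u + t : ℝ) : ℂ) * Complex.I) := by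
    have : (((Complex.arg z - Complex.arg u + t : ℝ) : ℂ) * Complex.I) =
        (t : ℂ) * Complex.I + (Complex.arg z : ℂ) * Complex.I +
          (-(Complex.arg u) : ℂ) * Complex.I := by
      push_cast; ring
    rw [this, Complex.exp_add, Complex.exp_add]
    ring
  rw [h4, Complex.re_ofReal_mul, Complex.exp_ofReal_mul_I_re]

lemma scale (m : ℕ) {a b : ℝ} (h : a ≤ b) :
    a * m / (2 * Real.pi) ≤ b * m / (2 * Real.pi) := by
  have := Real.pi_pos
  exact div_le_div_of_nonneg_right (mul_le_mul_of_nonneg_right h (by positivity)) (by positivity)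

/-- counting residues -/
lemma count_int (m : ℕ) (hm : 1 ≤ m) (x y : ℝ) (hxy : x ≤ y) (S : Finset ℕ)
    (hS : ∀ k ∈ S, k < m ∧ ∃ n : ℤ, x ≤ (k : ℝ) - n * m ∧ (k : ℝ) - n * m ≤ y) :
    (S.card : ℝ) ≤ y - x + 1 := by
  classical
  have hsub : S ⊆ (Finset.Icc ⌈x⌉ ⌊y⌋).image (fun j : ℤ => (j % (m : ℤ)).toNat) := by
    intro k hk
    obtain ⟨hkm, n, h1, h2⟩ := hS k hk
    rw [Finset.mem_image]
    refine ⟨(k : ℤ) - n * m, ?_, ?_⟩
    · rw [Finset.mem_Icc]
      refine ⟨Int.ceil_le.mpr ?_, Int.le_floor.mpr ?_⟩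
      · push_cast; exact h1
      · push_cast; exact h2
    · have : ((k : ℤ) - n * m) % (m : ℤ) = (k : ℤ) % (m : ℤ) := by
        rw [Int.sub_emod, Int.mul_emod_left, sub_zero, Int.emod_emod]
      rw [this]
      have h3 : ((k : ℤ) % (m : ℤ)) = (k : ℤ) :=
        Int.emod_eq_of_lt (by positivity) (by exact_mod_cast hkm)
      rw [h3]
      simp
  have hc : S.card ≤ (⌊y⌋ + 1 - ⌈x⌉).toNat := by
    refine (Finset.card_le_card hsub).trans (Finset.card_image_le.trans ?_)
    rw [Int.card_Icc]
  have hc' : (S.card : ℝ) ≤ ((⌊y⌋ + 1 - ⌈x⌉).toNat : ℝ) := by exact_mod_cast hc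
  refine hc'.trans ?_
  rcases le_total 0 (⌊y⌋ + 1 - ⌈x⌉) with h | h
  · have : (((⌊y⌋ + 1 - ⌈x⌉).toNat : ℤ) : ℝ) = ((⌊y⌋ + 1 - ⌈x⌉ : ℤ) : ℝ) := by
      rw [Int.toNat_of_nonneg h]
    have h2 : ((⌊y⌋ + 1 - ⌈x⌉).toNat : ℝ) = ((⌊y⌋ + 1 - ⌈x⌉ : ℤ) : ℝ) := by
      rw [← this]; exact (Int.cast_natCast _).symm
    rw [h2]
    push_cast
    have := Int.floor_le y
    have := Int.le_ceil x
    linarith
  · rw [Int.toNat_of_nonpos h]
    simp
    linarith

/-- every real number is congruent modulo `2π` to `± arccos (cos x)` -/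
lemma exists_int_arccos (x : ℝ) : ∃ n : ℤ, |x - n * (2 * Real.pi)| = Real.arccos (Real.cos x) := by
  obtain ⟨n, hn, -⟩ := existsUnique_sub_zsmul_mem_Ioc (Real.two_pi_pos) x (-Real.pi)
  refine ⟨n, ?_⟩
  simp only [zsmul_eq_mul, Set.mem_Ioc] at hn
  have h1 : |x - n * (2 * Real.pi)| ≤ Real.pi := by
    rw [abs_le]
    constructor
    · linarith [hn.1]
    · linarith [hn.2]
  have h2 : Real.cos |x - n * (2 * Real.pi)| = Real.cos x := by
    rw [Real.cos_abs, Real.cos_sub_int_mul_two_pi]
  rw [← h2, Real.arccos_cos (abs_nonneg _) h1]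

lemma near_of_cos_ge {x c : ℝ} (h : c ≤ Real.cos x) :
    ∃ n : ℤ, -Real.arccos c ≤ x - n * (2 * Real.pi) ∧
      x - n * (2 * Real.pi) ≤ Real.arccos c := by
  obtain ⟨n, hn⟩ := exists_int_arccos x
  refine ⟨n, ?_⟩
  rw [← abs_le, hn]
  exact Real.arccos_le_arccos h

lemma far_of_cos_le {x c : ℝ} (h : Real.cos x ≤ c) :
    ∃ n : ℤ, Real.arccos c ≤ x - n * (2 * Real.pi) ∧
      x - n * (2 * Real.pi) ≤ 2 * Real.pi - Real.arccos c := by
  obtain ⟨n, hn⟩ := exists_int_arccos x
  have h1 : Real.arccos c ≤ |x - n * (2 * Real.pi)| := by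
    rw [hn]; exact Real.arccos_le_arccos h
  have h2 : |x - n * (2 * Real.pi)| ≤ Real.pi := by
    rw [hn]; exact Real.arccos_le_pi _
  have h3 : Real.arccos c ≤ Real.pi := Real.arccos_le_pi _
  rcases le_total 0 (x - n * (2 * Real.pi)) with h0 | h0
  · rw [abs_of_nonneg h0] at h1 h2
    exact ⟨n, h1, by linarith⟩
  · rw [abs_of_nonpos h0] at h1 h2
    refine ⟨n - 1, ?_, ?_⟩
    · push_cast; linarith
    · push_cast; linarith

/-- the angle under which the line at distance `d` is seen on the circle of radius `‖z‖` -/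
noncomputable def al (d : ℝ) (z : ℂ) : ℝ := Real.arccos (d / ‖z‖)

lemma al_anti {d e : ℝ} (h : d ≤ e) (z : ℂ) : al e z ≤ al d z := by
  unfold al
  exact Real.arccos_le_arccos (by gcongr)

open scoped Classical in
lemma orbit_count (m : ℕ) (hm : 1 ≤ m) (u z : ℂ) (d : ℝ) (hu : ‖u‖ = 1) (hz : z ≠ 0) :
    (m * al d z / Real.pi - 1 ≤
        (((range m).filter (fun k => d < psi u (zt m ^ k * z))).card : ℝ)) ∧
      ((((range m).filter (fun k => d ≤ psi u (zt m ^ k * z))).card : ℝ) ≤
        m * al d z / Real.pi + 1) := by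
  have hm0 : (0 : ℝ) < m := by exact_mod_cast hm
  have hz0 : 0 < ‖z‖ := norm_pos_iff.mpr hz
  have hpi := Real.pi_pos
  set θ : ℝ := Complex.arg z - Complex.arg u with hθ
  have hpsi : ∀ k : ℕ, psi u (zt m ^ k * z) = ‖z‖ * Real.cos (θ + 2 * Real.pi * k / m) := by
    intro k
    rw [zt_pow, psi_exp u z _ hu]
  constructor
  · have hup : (((range m).filter (fun k => ¬ d < psi u (zt m ^ k * z))).card : ℝ) ≤
        (2 * Real.pi - al d z - θ) * m / (2 * Real.pi) - (al d z - θ) * m / (2 * Real.pi) + 1 := by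
      apply count_int m hm
      · have : al d z ≤ Real.pi := Real.arccos_le_pi _
        gcongr
        linarith
      · intro k hk
        rw [mem_filter, mem_range, hpsi, not_lt] at hk
        refine ⟨hk.1, ?_⟩
        have hc : Real.cos (θ + 2 * Real.pi * k / m) ≤ d / ‖z‖ := by
          rw [le_div_iff₀ hz0]; linarith [hk.2]
        obtain ⟨n, h1, h2⟩ := far_of_cos_le hc
        have e1 : (k : ℝ) - n * m = (θ + 2 * Real.pi * k / m - n * (2 * Real.pi) - θ) * m /
            (2 * Real.pi) := by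
          field_simp
          ring
        refine ⟨n, ?_, ?_⟩
        · rw [e1]
          exact scale m (by unfold al; linarith)
        · rw [e1]
          exact scale m (by unfold al; linarith)
    have hsum : (((range m).filter (fun k => d < psi u (zt m ^ k * z))).card : ℝ) +
        (((range m).filter (fun k => ¬ d < psi u (zt m ^ k * z))).card : ℝ) = m := by
      have := Finset.card_filter_add_card_filter_not (s := range m)
        (fun k => d < psi u (zt m ^ k * z))
      rw [card_range] at this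
      exact_mod_cast this
    have e2 : (2 * Real.pi - al d z - θ) * m / (2 * Real.pi) - (al d z - θ) * m / (2 * Real.pi) =
        m - m * al d z / Real.pi := by
      field_simp
      ring
    rw [e2] at hup
    linarith
  · have hup : (((range m).filter (fun k => d ≤ psi u (zt m ^ k * z))).card : ℝ) ≤
        (al d z - θ) * m / (2 * Real.pi) - (- al d z - θ) * m / (2 * Real.pi) + 1 := by
      apply count_int m hm
      · have : 0 ≤ al d z := Real.arccos_nonneg _
        gcongr
        linarith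
      · intro k hk
        rw [mem_filter, mem_range, hpsi] at hk
        refine ⟨hk.1, ?_⟩
        have hc : d / ‖z‖ ≤ Real.cos (θ + 2 * Real.pi * k / m) := by
          rw [div_le_iff₀ hz0]; linarith [hk.2]
        obtain ⟨n, h1, h2⟩ := near_of_cos_ge hc
        have e1 : (k : ℝ) - n * m = (θ + 2 * Real.pi * k / m - n * (2 * Real.pi) - θ) * m /
            (2 * Real.pi) := by
          field_simp
          ring
        refine ⟨n, ?_, ?_⟩
        · rw [e1]
          exact scale m (by unfold al; linarith)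
        · rw [e1]
          exact scale m (by unfold al; linarith)
    have e2 : (al d z - θ) * m / (2 * Real.pi) - (- al d z - θ) * m / (2 * Real.pi) =
        m * al d z / Real.pi := by
      field_simp
      ring
    rw [e2] at hup
    exact hup

end Pool.Agent.R117.KR
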