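import Pool.Agent.R117.KR.Core

/-!
# Point sets with a rotational symmetry: the number of pairs on lines with a given number of points
on one side
-/

set_option autoImplicit false

namespace Pool.Agent.R117.KR

open Finset

lemma zt_ne (m : ℕ) : zt m ≠ 0 := Complex.exp_ne_zero _

open scoped Classical in
lemma image_pow {m : ℕ} {P : Finset ℂ} (hP : ∀ z ∈ P, zt m * z ∈ P) (k : ℕ) :
    P.image (fun z => zt m ^ k * z) = P := by
  have hmem : ∀ k : ℕ, ∀ z ∈ P, zt m ^ k * z ∈ P := by
    intro k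
    induction k with
    | zero => intro z hz; simpa using hz
    | succ k ih =>
      intro z hz
      rw [pow_succ, mul_comm (zt m ^ k) (zt m), mul_assoc]
      exact hP _ (ih z hz)
  apply Finset.eq_of_subset_of_card_le
  · intro w hw
    rw [mem_image] at hw
    obtain ⟨z, hz, rfl⟩ := hw
    exact hmem k z hz
  · rw [Finset.card_image_of_injective]
    intro a b hab
    exact mul_left_cancel₀ (pow_ne_zero k (zt_ne m)) hab

open scoped Classical in
lemma sum_orbit {m : ℕ} {P : Finset ℂ} (hP : ∀ z ∈ P, zt m * z ∈ P) (Q : ℂ → Prop) :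
    ∑ z ∈ P, ((range m).filter (fun k => Q (zt m ^ k * z))).card = m * (P.filter Q).card := by
  have h1 : ∀ z ∈ P, ((range m).filter (fun k => Q (zt m ^ k * z))).card =
      ∑ k ∈ range m, if Q (zt m ^ k * z) then 1 else 0 := by
    intro z _
    rw [Finset.card_filter]
  rw [Finset.sum_congr rfl h1, Finset.sum_comm]
  have h2 : ∀ k ∈ range m, (∑ z ∈ P, if Q (zt m ^ k * z) then 1 else 0) = (P.filter Q).card := by
    intro k _
    rw [Finset.card_filter]
    conv_rhs => rw [← image_pow hP k]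
    rw [Finset.sum_image]
    intro a _ b _ hab
    exact mul_left_cancel₀ (pow_ne_zero k (zt_ne m)) hab
  rw [Finset.sum_congr rfl h2, Finset.sum_const, card_range, smul_eq_mul]

/-- the expected number of points beyond a line at distance `d` -/
noncomputable def FF (P : Finset ℂ) (d : ℝ) : ℝ := ∑ z ∈ P, al d z / Real.pi

open scoped Classical in
lemma FF_close {m : ℕ} (hm : 1 ≤ m) {P : Finset ℂ} (hP : ∀ z ∈ P, zt m * z ∈ P)
    (h0 : ∀ z ∈ P, z ≠ 0) (u : ℂ) (hu : ‖u‖ = 1) (d : ℝ) :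
    FF P d - P.card / m ≤ ((P.filter (fun z => d < psi u z)).card : ℝ) ∧
      ((P.filter (fun z => d ≤ psi u z)).card : ℝ) ≤ FF P d + P.card / m := by
  have hm0 : (0 : ℝ) < m := by exact_mod_cast hm
  constructor
  · have h1 := sum_orbit hP (fun z => d < psi u z)
    have h2 : (∑ z ∈ P, (m * al d z / Real.pi - 1) : ℝ) ≤
        ((∑ z ∈ P, ((range m).filter (fun k => d < psi u (zt m ^ k * z))).card : ℕ) : ℝ) := by
      push_cast
      exact Finset.sum_le_sum fun z hz => (orbit_count m hm u z d hu (h0 z hz)).1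
    rw [h1, Finset.sum_sub_distrib, Finset.sum_const, nsmul_eq_mul, mul_one] at h2
    have h3 : (∑ z ∈ P, (m : ℝ) * al d z / Real.pi) = m * FF P d := by
      unfold FF
      rw [Finset.mul_sum]
      exact Finset.sum_congr rfl fun z _ => by ring
    rw [h3] at h2
    push_cast at h2
    have h4 : (m : ℝ) * (FF P d - P.card / m) ≤
        m * ((P.filter (fun z => d < psi u z)).card : ℝ) := by
      have : (m : ℝ) * (FF P d - P.card / m) = m * FF P d - P.card := by field_simp
      rw [this]; exact h2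
    exact le_of_mul_le_mul_left h4 hm0
  · have h1 := sum_orbit hP (fun z => d ≤ psi u z)
    have h2 : ((∑ z ∈ P, ((range m).filter (fun k => d ≤ psi u (zt m ^ k * z))).card : ℕ) : ℝ)
        ≤ (∑ z ∈ P, (m * al d z / Real.pi + 1) : ℝ) := by
      push_cast
      exact Finset.sum_le_sum fun z hz => (orbit_count m hm u z d hu (h0 z hz)).2
    rw [h1, Finset.sum_add_distrib, Finset.sum_const, nsmul_eq_mul, mul_one] at h2
    have h3 : (∑ z ∈ P, (m : ℝ) * al d z / Real.pi) = m * FF P d := by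
      unfold FF
      rw [Finset.mul_sum]
      exact Finset.sum_congr rfl fun z _ => by ring
    rw [h3] at h2
    push_cast at h2
    have h4 : m * ((P.filter (fun z => d ≤ psi u z)).card : ℝ) ≤
        (m : ℝ) * (FF P d + P.card / m) := by
      have : (m : ℝ) * (FF P d + P.card / m) = m * FF P d + P.card := by field_simp
      rw [this]; exact h2
    exact le_of_mul_le_mul_left h4 hm0

/-- pairs of points whose connecting line has signed distance between `d₁` and `d₂` -/
def Pr (d₁ d₂ : ℝ) (p q : ℂ) : Prop :=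
  ∃ (u : ℂ) (d : ℝ), ‖u‖ = 1 ∧ psi u p = d ∧ psi u q = d ∧ d₁ ≤ d ∧ d ≤ d₂

open scoped Classical in
lemma pair_count {m : ℕ} (hm : 1 ≤ m) {d₁ d₂ : ℝ} (h12 : d₁ ≤ d₂) {p q : ℂ} (hp : p ≠ 0)
    (hq : q ≠ 0) :
    (((range m).filter (fun k => Pr d₁ d₂ p (zt m ^ k * q))).card : ℝ) ≤
      4 * (m / (2 * Real.pi) * ((al d₁ p - al d₂ p) + (al d₁ q - al d₂ q)) + 1) := by
  have hm0 : (0 : ℝ) < m := by exact_mod_cast hm
  have hpi := Real.pi_pos
  have hp0 : 0 < ‖p‖ := norm_pos_iff.mpr hp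
  have hq0 : 0 < ‖q‖ := norm_pos_iff.mpr hq
  set ω : ℝ := Complex.arg p - Complex.arg q with hω
  have hdp : 0 ≤ al d₁ p - al d₂ p := sub_nonneg.mpr (al_anti h12 p)
  have hdq : 0 ≤ al d₁ q - al d₂ q := sub_nonneg.mpr (al_anti h12 q)
  -- the sets for the four sign patterns
  set T : ℝ → Finset ℕ := fun lo => (range m).filter (fun k => ∃ n : ℤ,
    (ω + lo) * m / (2 * Real.pi) ≤ (k : ℝ) - n * m ∧ (k : ℝ) - n * m ≤
      (ω + lo + ((al d₁ p - al d₂ p) + (al d₁ q - al d₂ q))) * m / (2 * Real.pi)) with hT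
  have hTc : ∀ lo, ((T lo).card : ℝ) ≤
      m / (2 * Real.pi) * ((al d₁ p - al d₂ p) + (al d₁ q - al d₂ q)) + 1 := by
    intro lo
    have h := count_int m hm ((ω + lo) * m / (2 * Real.pi))
      ((ω + lo + ((al d₁ p - al d₂ p) + (al d₁ q - al d₂ q))) * m / (2 * Real.pi))
      (scale m (by linarith)) (T lo) (by
        intro k hk
        rw [hT, mem_filter, mem_range] at hk
        exact hk)
    refine h.trans (le_of_eq ?_)
    field_simp
    ring
  have hsub : (range m).filter (fun k => Pr d₁ d₂ p (zt m ^ k * q)) ⊆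
      (T (al d₂ q - al d₁ p) ∪ T (al d₂ q + al d₂ p)) ∪
        (T (- al d₁ q - al d₁ p) ∪ T (- al d₁ q + al d₂ p)) := by
    intro k hk
    rw [mem_filter, mem_range] at hk
    obtain ⟨hkm, u, d, hu, h1, h2, h3, h4⟩ := hk
    have e1 : ‖p‖ * Real.cos (Complex.arg p - Complex.arg u) = d := by
      have := psi_exp u p 0 hu
      simp only [Complex.ofReal_zero, zero_mul, Complex.exp_zero, one_mul, add_zero] at this
      rw [← this]; exact h1
    have e2 : ‖q‖ * Real.cos (Complex.arg q - Complex.arg u + 2 * Real.pi * k / m) = d := by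
      rw [← psi_exp u q _ hu, ← zt_pow]; exact h2
    obtain ⟨n₁, g1⟩ := exists_int_arccos (Complex.arg p - Complex.arg u)
    obtain ⟨n₂, g2⟩ := exists_int_arccos (Complex.arg q - Complex.arg u + 2 * Real.pi * k / m)
    have c1 : Real.cos (Complex.arg p - Complex.arg u) = d / ‖p‖ := by
      rw [eq_div_iff hp0.ne']; linarith
    have c2 : Real.cos (Complex.arg q - Complex.arg u + 2 * Real.pi * k / m) = d / ‖q‖ := by
      rw [eq_div_iff hq0.ne']; linarith
    rw [c1] at g1
    rw [c2] at g2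
    change _ = al d p at g1
    change _ = al d q at g2
    have a1 := al_anti h3 p
    have a2 := al_anti h4 p
    have a3 := al_anti h3 q
    have a4 := al_anti h4 q
    have hA : 0 ≤ al d p := Real.arccos_nonneg _
    have hB : 0 ≤ al d q := Real.arccos_nonneg _
    rw [abs_eq hA] at g1
    rw [abs_eq hB] at g2
    have key : ∀ s : ℝ, (Complex.arg q - Complex.arg u + 2 * Real.pi * k / m -
        n₂ * (2 * Real.pi)) - (Complex.arg p - Complex.arg u - n₁ * (2 * Real.pi)) = s →
        (k : ℝ) - ((n₂ - n₁ : ℤ) : ℝ) * m = (ω + s) * m / (2 * Real.pi) := by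
      intro s hs
      have : ω + s = 2 * Real.pi * k / m - ((n₂ : ℝ) - n₁) * (2 * Real.pi) := by
        rw [← hs, hω]; ring
      rw [this]
      push_cast
      field_simp
    rw [mem_union, mem_union, mem_union]
    rcases g2 with g2 | g2 <;> rcases g1 with g1 | g1
    · left; left
      rw [hT, mem_filter, mem_range]
      refine ⟨hkm, n₂ - n₁, ?_, ?_⟩
      · rw [key (al d q - al d p) (by rw [g2, g1])]
        exact scale m (by linarith)
      · rw [key (al d q - al d p) (by rw [g2, g1])]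
        exact scale m (by linarith)
    · left; right
      rw [hT, mem_filter, mem_range]
      refine ⟨hkm, n₂ - n₁, ?_, ?_⟩
      · rw [key (al d q + al d p) (by rw [g2, g1]; ring)]
        exact scale m (by linarith)
      · rw [key (al d q + al d p) (by rw [g2, g1]; ring)]
        exact scale m (by linarith)
    · right; left
      rw [hT, mem_filter, mem_range]
      refine ⟨hkm, n₂ - n₁, ?_, ?_⟩
      · rw [key (- al d q - al d p) (by rw [g2, g1])]
        exact scale m (by linarith)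
      · rw [key (- al d q - al d p) (by rw [g2, g1])]
        exact scale m (by linarith)
    · right; right
      rw [hT, mem_filter, mem_range]
      refine ⟨hkm, n₂ - n₁, ?_, ?_⟩
      · rw [key (- al d q + al d p) (by rw [g2, g1]; ring)]
        exact scale m (by linarith)
      · rw [key (- al d q + al d p) (by rw [g2, g1]; ring)]
        exact scale m (by linarith)
  have hcard := Finset.card_le_card hsub
  have hu1 := Finset.card_union_le (T (al d₂ q - al d₁ p) ∪ T (al d₂ q + al d₂ p))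
    (T (- al d₁ q - al d₁ p) ∪ T (- al d₁ q + al d₂ p))
  have hu2 := Finset.card_union_le (T (al d₂ q - al d₁ p)) (T (al d₂ q + al d₂ p))
  have hu3 := Finset.card_union_le (T (- al d₁ q - al d₁ p)) (T (- al d₁ q + al d₂ p))
  have hN : ((range m).filter (fun k => Pr d₁ d₂ p (zt m ^ k * q))).card ≤
      ((T (al d₂ q - al d₁ p)).card + (T (al d₂ q + al d₂ p)).card) +
        ((T (- al d₁ q - al d₁ p)).card + (T (- al d₁ q + al d₂ p)).card) := by omega
  have hR : (((range m).filter (fun k => Pr d₁ d₂ p (zt m ^ k * q))).card : ℝ) ≤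
      (((T (al d₂ q - al d₁ p)).card : ℝ) + (T (al d₂ q + al d₂ p)).card) +
        ((T (- al d₁ q - al d₁ p)).card + (T (- al d₁ q + al d₂ p)).card) := by
    exact_mod_cast hN
  have t1 := hTc (al d₂ q - al d₁ p)
  have t2 := hTc (al d₂ q + al d₂ p)
  have t3 := hTc (- al d₁ q - al d₁ p)
  have t4 := hTc (- al d₁ q + al d₂ p)
  linarith

open scoped Classical in
lemma total_count {m : ℕ} (hm : 1 ≤ m) {P : Finset ℂ} (hP : ∀ z ∈ P, zt m * z ∈ P)
    (h0 : ∀ z ∈ P, z ≠ 0) {d₁ d₂ : ℝ} (h12 : d₁ ≤ d₂) :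
    (m : ℝ) * ((P ×ˢ P).filter (fun x => Pr d₁ d₂ x.1 x.2)).card ≤
      4 * (m * P.card * (FF P d₁ - FF P d₂) + (P.card : ℝ) ^ 2) := by
  have hpi := Real.pi_pos
  have h1 : ∀ p ∈ P, ((∑ q ∈ P, ((range m).filter
      (fun k => Pr d₁ d₂ p (zt m ^ k * q))).card : ℕ) : ℝ) =
      m * ((P.filter (fun q => Pr d₁ d₂ p q)).card : ℝ) := by
    intro p _
    rw [sum_orbit hP (fun q => Pr d₁ d₂ p q)]
    push_cast
    rfl
  have h2 : ((P ×ˢ P).filter (fun x => Pr d₁ d₂ x.1 x.2)).card =
      ∑ p ∈ P, (P.filter (fun q => Pr d₁ d₂ p q)).card := by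
    rw [Finset.card_filter, Finset.sum_product]
    refine Finset.sum_congr rfl fun p _ => ?_
    rw [Finset.card_filter]
  have h3 : (m : ℝ) * ((P ×ˢ P).filter (fun x => Pr d₁ d₂ x.1 x.2)).card =
      ∑ p ∈ P, ∑ q ∈ P, (((range m).filter (fun k => Pr d₁ d₂ p (zt m ^ k * q))).card : ℝ) := by
    rw [h2]
    push_cast
    rw [Finset.mul_sum]
    refine Finset.sum_congr rfl fun p hp => ?_
    rw [← h1 p hp]
    push_cast
    rfl
  rw [h3]
  have h4 : (∑ p ∈ P, ∑ q ∈ P,
      (((range m).filter (fun k => Pr d₁ d₂ p (zt m ^ k * q))).card : ℝ)) ≤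
      ∑ p ∈ P, ∑ q ∈ P,
        4 * (m / (2 * Real.pi) * ((al d₁ p - al d₂ p) + (al d₁ q - al d₂ q)) + 1) :=
    Finset.sum_le_sum fun p hp => Finset.sum_le_sum fun q hq =>
      pair_count hm h12 (h0 p hp) (h0 q hq)
  refine h4.trans (le_of_eq ?_)
  have hS : ∀ d : ℝ, ∑ z ∈ P, al d z = Real.pi * FF P d := by
    intro d
    unfold FF
    rw [Finset.mul_sum]
    exact Finset.sum_congr rfl fun z _ => by field_simp
  have hD : ∑ z ∈ P, (al d₁ z - al d₂ z) = Real.pi * (FF P d₁ - FF P d₂) := by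
    rw [Finset.sum_sub_distrib, hS, hS]; ring
  have h5 : ∀ p ∈ P, (∑ q ∈ P,
      4 * (m / (2 * Real.pi) * ((al d₁ p - al d₂ p) + (al d₁ q - al d₂ q)) + 1)) =
      4 * (m / (2 * Real.pi) * (P.card * (al d₁ p - al d₂ p) +
        Real.pi * (FF P d₁ - FF P d₂)) + P.card) := by
    intro p _
    rw [← Finset.mul_sum, Finset.sum_add_distrib, ← Finset.mul_sum, Finset.sum_add_distrib, hD]
    simp only [Finset.sum_const, nsmul_eq_mul, mul_one]
  rw [Finset.sum_congr rfl h5, ← Finset.mul_sum, Finset.sum_add_distrib, ← Finset.mul_sum,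
    Finset.sum_add_distrib, ← Finset.mul_sum, hD]
  simp only [Finset.sum_const, nsmul_eq_mul]
  field_simp
  ring

open scoped Classical in
/-- The pairs of points of `P` on lines with at most `κ + t` points strictly beyond and at least
`κ - t` points weakly beyond. -/
lemma bad_bound {m : ℕ} (hm : 1 ≤ m) {P : Finset ℂ} (hP : ∀ z ∈ P, zt m * z ∈ P)
    (h0 : ∀ z ∈ P, z ≠ 0) (κ t : ℕ) :
    m * ((P ×ˢ P).filter (fun x => ∃ (u : ℂ) (d : ℝ), ‖u‖ = 1 ∧ psi u x.1 = d ∧ psi u x.2 = d ∧
      (P.filter (fun z => d < psi u z)).card ≤ κ + t ∧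
      κ ≤ (P.filter (fun z => d ≤ psi u z)).card + t)).card ≤
      12 * P.card ^ 2 + 8 * (m * P.card * t) := by
  have hm0 : (0 : ℝ) < m := by exact_mod_cast hm
  set B := (P ×ˢ P).filter (fun x => ∃ (u : ℂ) (d : ℝ), ‖u‖ = 1 ∧ psi u x.1 = d ∧
    psi u x.2 = d ∧ (P.filter (fun z => d < psi u z)).card ≤ κ + t ∧
      κ ≤ (P.filter (fun z => d ≤ psi u z)).card + t) with hB
  rcases B.eq_empty_or_nonempty with he | hne
  · rw [he]; simp
  have hch : ∀ x : ℂ × ℂ, ∃ d : ℝ, x ∈ B → ∃ u : ℂ, ‖u‖ = 1 ∧ psi u x.1 = d ∧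
    psi u x.2 = d ∧ (P.filter (fun z => d < psi u z)).card ≤ κ + t ∧
      κ ≤ (P.filter (fun z => d ≤ psi u z)).card + t := by
    intro x
    by_cases hx : x ∈ B
    · have := hx
      rw [hB, mem_filter] at this
      obtain ⟨-, u, d, h⟩ := this
      exact ⟨d, fun _ => ⟨u, h⟩⟩
    · exact ⟨0, fun h => absurd h hx⟩
  choose dd hdd using hch
  have hTne : (B.image dd).Nonempty := hne.image dd
  set d₁ := (B.image dd).min' hTne with hd1
  set d₂ := (B.image dd).max' hTne with hd2
  have h12 : d₁ ≤ d₂ := Finset.min'_le_max' _ _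
  have hval : ∀ d ∈ B.image dd, FF P d - P.card / m ≤ κ + t ∧
      (κ : ℝ) ≤ FF P d + P.card / m + t := by
    intro d hd
    rw [mem_image] at hd
    obtain ⟨x, hx, rfl⟩ := hd
    obtain ⟨u, hu, -, -, g3, g4⟩ := hdd x hx
    obtain ⟨f1, f2⟩ := FF_close hm hP h0 u hu (dd x)
    have g3' : ((P.filter (fun z => dd x < psi u z)).card : ℝ) ≤ κ + t := by exact_mod_cast g3
    have g4' : (κ : ℝ) ≤ ((P.filter (fun z => dd x ≤ psi u z)).card : ℝ) + t := by
      exact_mod_cast g4
    exact ⟨f1.trans g3', by linarith⟩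
  have hv1 := (hval d₁ (Finset.min'_mem _ _)).1
  have hv2 := (hval d₂ (Finset.max'_mem _ _)).2
  have hsub : B ⊆ (P ×ˢ P).filter (fun x => Pr d₁ d₂ x.1 x.2) := by
    intro x hx
    have hx' := hx
    rw [hB, mem_filter] at hx'
    rw [mem_filter]
    refine ⟨hx'.1, ?_⟩
    obtain ⟨u, hu, g1, g2, -, -⟩ := hdd x hx
    exact ⟨u, dd x, hu, g1, g2, Finset.min'_le _ _ (mem_image_of_mem dd hx),
      Finset.le_max' _ _ (mem_image_of_mem dd hx)⟩
  have hc := Finset.card_le_card hsub
  have ht := total_count hm hP h0 h12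
  have hc' : (B.card : ℝ) ≤ ((P ×ˢ P).filter (fun x => Pr d₁ d₂ x.1 x.2)).card := by
    exact_mod_cast hc
  have hdiff : FF P d₁ - FF P d₂ ≤ 2 * (P.card / m + t) := by linarith
  have hfin : (m : ℝ) * B.card ≤ 12 * (P.card : ℝ) ^ 2 + 8 * (m * P.card * t) := by
    calc (m : ℝ) * B.card ≤ m * ((P ×ˢ P).filter (fun x => Pr d₁ d₂ x.1 x.2)).card := by gcongr
      _ ≤ 4 * (m * P.card * (FF P d₁ - FF P d₂) + (P.card : ℝ) ^ 2) := ht
      _ ≤ 4 * (m * P.card * (2 * (P.card / m + t)) + (P.card : ℝ) ^ 2) := by gcongr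
      _ = 12 * (P.card : ℝ) ^ 2 + 8 * (m * P.card * t) := by field_simp; ring
  exact_mod_cast hfin

end Pool.Agent.R117.KR
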