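import Pool.Agent.R117.KR.Lines

/-!
# Levels of line arrangements with an affine symmetry
-/

set_option autoImplicit false

namespace Pool.Agent.R117.KR

open Finset Filter Topology

/-- The height at abscissa `x` of the non-vertical line with slope `l.1` and intercept `l.2`. -/
def height (l : ℝ × ℝ) (x : ℝ) : ℝ := l.1 * x + l.2

open scoped Classical in
/-- The level of a point: the number of lines of `Γ` passing strictly below it. -/
noncomputable def level (Γ : Finset (ℝ × ℝ)) (p : ℝ × ℝ) : ℕ :=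
  (Γ.filter (fun l => height l p.1 < p.2)).card

/-- The `k`-level: the closure of the set of points that lie on some line of `Γ` and have level
exactly `k`. -/
def kLevel (Γ : Finset (ℝ × ℝ)) (k : ℕ) : Set (ℝ × ℝ) :=
  closure {p | (∃ l ∈ Γ, height l p.1 = p.2) ∧ level Γ p = k}

/-- The vertices of the `k`-level: the points where the chain passes from one line `l` of `Γ`
to another line `m` of `Γ`. -/
def IsVertex (Γ : Finset (ℝ × ℝ)) (k : ℕ) (p : ℝ × ℝ) : Prop :=
  ∃ l ∈ Γ, ∃ m ∈ Γ, l ≠ m ∧ height l p.1 = p.2 ∧ height m p.1 = p.2 ∧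
    ∃ δ > 0, (∀ x, p.1 - δ < x → x < p.1 → (x, height l x) ∈ kLevel Γ k) ∧
      (∀ x, p.1 < x → x < p.1 + δ → (x, height m x) ∈ kLevel Γ k)

/-- The complexity of the `k`-level: the number of its vertices. -/
noncomputable def complexity (Γ : Finset (ℝ × ℝ)) (k : ℕ) : ℕ := {p | IsVertex Γ k p}.ncard

open scoped Classical in
lemma eventually_sub (Γ : Finset (ℝ × ℝ)) (p : ℝ × ℝ) : ∀ᶠ x in 𝓝 p,
    (∀ l ∈ Γ, height l p.1 < p.2 → height l x.1 < x.2) ∧
      (∀ l ∈ Γ, p.2 < height l p.1 → x.2 < height l x.1) := by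
  have hcont : ∀ l : ℝ × ℝ, Continuous (fun x : ℝ × ℝ => height l x.1) := by
    intro l
    unfold height
    fun_prop
  refine Filter.Eventually.and ?_ ?_
  · rw [Filter.eventually_all_finset]
    intro l _
    by_cases h : height l p.1 < p.2
    · filter_upwards [(isOpen_lt (hcont l) continuous_snd).mem_nhds h] with x hx _
      exact hx
    · exact Filter.Eventually.of_forall fun x h' => absurd h' h
  · rw [Filter.eventually_all_finset]
    intro l _
    by_cases h : p.2 < height l p.1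
    · filter_upwards [(isOpen_lt continuous_snd (hcont l)).mem_nhds h] with x hx _
      exact hx
    · exact Filter.Eventually.of_forall fun x h' => absurd h' h

open scoped Classical in
lemma kLevel_card {Γ : Finset (ℝ × ℝ)} {k : ℕ} {p : ℝ × ℝ} (hp : p ∈ kLevel Γ k) :
    level Γ p ≤ k ∧ k < (Γ.filter (fun l => height l p.1 ≤ p.2)).card := by
  unfold kLevel at hp
  rw [mem_closure_iff_frequently] at hp
  obtain ⟨x, ⟨⟨l, hl, hlx⟩, hlev⟩, h1, h2⟩ := (hp.and_eventually (eventually_sub Γ p)).exists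
  constructor
  · rw [← hlev]
    unfold level
    apply Finset.card_le_card
    intro j hj
    rw [mem_filter] at hj ⊢
    exact ⟨hj.1, h1 j hj.1 hj.2⟩
  · rw [← hlev]
    unfold level
    apply lt_of_lt_of_le (b := (Γ.filter (fun j => height j x.1 ≤ x.2)).card)
    · apply Finset.card_lt_card
      rw [Finset.ssubset_iff_of_subset]
      · refine ⟨l, ?_, ?_⟩
        · rw [mem_filter]; exact ⟨hl, hlx.le⟩
        · rw [mem_filter]; rintro ⟨-, h⟩; linarith
      · intro j hj
        rw [mem_filter] at hj ⊢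
        exact ⟨hj.1, hj.2.le⟩
    · apply Finset.card_le_card
      intro j hj
      rw [mem_filter] at hj ⊢
      refine ⟨hj.1, ?_⟩
      by_contra h
      have := h2 j hj.1 (not_le.mp h)
      linarith [hj.2]

lemma vertex_mem {Γ : Finset (ℝ × ℝ)} {k : ℕ} {p : ℝ × ℝ} (hp : IsVertex Γ k p) :
    p ∈ kLevel Γ k := by
  obtain ⟨l, -, m, -, -, h1, -, δ, hδ, h3, -⟩ := hp
  have hcl : IsClosed (kLevel Γ k) := isClosed_closure
  have ht : Tendsto (fun x => (x, height l x)) (𝓝[<] p.1) (𝓝 p) := by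
    have hc : Continuous (fun x : ℝ => (x, height l x)) := by
      unfold height
      fun_prop
    have := (hc.tendsto p.1).mono_left (nhdsWithin_le_nhds (s := Set.Iio p.1))
    have he : (p.1, height l p.1) = p := by rw [h1]
    rw [he] at this
    exact this
  refine hcl.mem_of_tendsto ht ?_
  filter_upwards [Ioo_mem_nhdsLT (show p.1 - δ < p.1 by linarith)] with x hx
  exact h3 x hx.1 hx.2

open scoped Classical in
theorem complexity_bound {m : ℕ} (hm : 1 ≤ m) {ξ : ℂ} (hξ : IsPrimitiveRoot ξ m)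
    {Γ Δ : Finset (ℝ × ℝ)} {e : (ℝ × ℝ) ≃ₗ[ℝ] ℂ} {o : ℝ × ℝ} (hΔ : Inv Δ ξ e o) {t : ℕ}
    (ht : (Γ \ Δ).card + (Δ \ Γ).card ≤ t) (k : ℕ) :
    m * complexity Γ k ≤ 7 * (Γ.card + t) ^ 2 + 5 * (m * t * (Γ.card + t)) := by
  have hch : ∀ p : ℝ × ℝ, ∃ x : (ℝ × ℝ) × (ℝ × ℝ), IsVertex Γ k p →
      x ∈ V Γ k ∧ x.swap ∈ V Γ k ∧ x.1 ≠ x.2 ∧ height x.1 p.1 = p.2 ∧ height x.2 p.1 = p.2 := by
    intro p
    by_cases hp : IsVertex Γ k p
    · obtain ⟨h1, h2⟩ := kLevel_card (vertex_mem hp)
      obtain ⟨l, hl, j, hj, hlj, hl1, hj1, -⟩ := hp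
      have e1 : Γ.filter (fun z => -p.2 < -p.1 * z.1 + -1 * z.2) =
          Γ.filter (fun z => height z p.1 < p.2) := by
        apply Finset.filter_congr
        intro z _
        unfold height
        constructor <;> intro h <;> linarith
      have e2 : Γ.filter (fun z => -p.2 ≤ -p.1 * z.1 + -1 * z.2) =
          Γ.filter (fun z => height z p.1 ≤ p.2) := by
        apply Finset.filter_congr
        intro z _
        unfold height
        constructor <;> intro h <;> linarith
      have hV : ∀ l ∈ Γ, ∀ j ∈ Γ, l ≠ j → height l p.1 = p.2 → height j p.1 = p.2 →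
          (l, j) ∈ V Γ k := by
        intro l hl j hj hlj hl1 hj1
        unfold V
        rw [mem_filter, mem_product]
        refine ⟨⟨hl, hj⟩, hlj, -p.1, -1, -p.2, Or.inr (by norm_num), ?_, ?_, ?_, ?_⟩
        · unfold height at hl1; simp only; linarith
        · unfold height at hj1; simp only; linarith
        · rw [e1]; exact h1
        · rw [e2]; exact h2
      exact ⟨(l, j), fun _ => ⟨hV l hl j hj hlj hl1 hj1, hV j hj l hl hlj.symm hj1 hl1, hlj, hl1,
        hj1⟩⟩
    · exact ⟨((0, 0), (0, 0)), fun h => absurd h hp⟩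
  choose f hf using hch
  have huniq : ∀ l j : ℝ × ℝ, l ≠ j → ∀ p q : ℝ × ℝ, height l p.1 = p.2 → height j p.1 = p.2 →
      height l q.1 = q.2 → height j q.1 = q.2 → p = q := by
    intro l j hlj p q h1 h2 h3 h4
    unfold height at h1 h2 h3 h4
    have hs : l.1 - j.1 ≠ 0 := by
      intro h
      apply hlj
      have h5 : l.1 = j.1 := by linarith
      refine Prod.ext h5 ?_
      rw [h5] at h1
      linarith
    have h6 : (l.1 - j.1) * (p.1 - q.1) = 0 := by linarith
    have h7 := (mul_eq_zero.mp h6).resolve_left hs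
    have h8 : p.1 = q.1 := by linarith
    refine Prod.ext h8 ?_
    rw [← h1, ← h3, h8]
  have h2 := two_mul_le {p | IsVertex Γ k p} (V Γ k) f
    (fun p hp => ⟨(hf p hp).1, (hf p hp).2.1, (hf p hp).2.2.1⟩) (by
      intro p hp q hq h
      obtain ⟨-, -, h1, h2, h3⟩ := hf p hp
      obtain ⟨-, -, -, h5, h6⟩ := hf q hq
      rcases h with h | h
      · exact huniq _ _ h1 p q h2 h3 (by rw [h]; exact h5) (by rw [h]; exact h6)
      · exact huniq _ _ h1 p q h2 h3 (by rw [h]; exact h6) (by rw [h]; exact h5))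
  have h3 := V_bound hm hξ hΔ ht k
  have : 2 * (m * complexity Γ k) ≤
      2 * (7 * (Γ.card + t) ^ 2 + 5 * (m * t * (Γ.card + t))) := by
    calc 2 * (m * complexity Γ k) = m * (2 * {p | IsVertex Γ k p}.ncard) := by
          unfold complexity; ring
      _ ≤ m * (V Γ k).card := Nat.mul_le_mul_left _ h2
      _ ≤ 14 * (Γ.card + t) ^ 2 + 10 * (m * t * (Γ.card + t)) := h3
      _ = 2 * (7 * (Γ.card + t) ^ 2 + 5 * (m * t * (Γ.card + t))) := by ring
  omega

end Pool.Agent.R117.KR
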