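import Pool.Agent.R117.KR.Plane

/-!
# Lines with `k` points on one side, and levels of line arrangements
-/

set_option autoImplicit false

namespace Pool.Agent.R117.KR

open Finset

lemma two_mul_le {α β : Type*} [DecidableEq α] (S : Set β) (T : Finset (α × α)) (f : β → α × α)
    (hf : ∀ s ∈ S, f s ∈ T ∧ (f s).swap ∈ T ∧ (f s).1 ≠ (f s).2)
    (hinj : ∀ s ∈ S, ∀ t ∈ S, (f s = f t ∨ f s = (f t).swap) → s = t) :
    2 * S.ncard ≤ T.card := by
  classical
  have hfin : S.Finite := by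
    apply Set.Finite.of_finite_image (f := f)
    · exact T.finite_toSet.subset (by
        rintro _ ⟨s, hs, rfl⟩
        exact (hf s hs).1)
    · intro s hs t ht h
      exact hinj s hs t ht (Or.inl h)
  set S' := hfin.toFinset with hS'
  have hmem : ∀ s, s ∈ S' ↔ s ∈ S := fun s => hfin.mem_toFinset
  have hA : (S'.image f).card = S'.card := by
    apply Finset.card_image_of_injOn
    intro s hs t ht h
    exact hinj s ((hmem s).mp hs) t ((hmem t).mp ht) (Or.inl h)
  have hB : (S'.image (fun s => (f s).swap)).card = S'.card := by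
    apply Finset.card_image_of_injOn
    intro s hs t ht h
    exact hinj s ((hmem s).mp hs) t ((hmem t).mp ht) (Or.inl (Prod.swap_injective h))
  have hd : Disjoint (S'.image f) (S'.image (fun s => (f s).swap)) := by
    rw [Finset.disjoint_left]
    intro x h1 h2
    rw [mem_image] at h1 h2
    obtain ⟨s, hs, rfl⟩ := h1
    obtain ⟨t, ht, h⟩ := h2
    have hst := hinj s ((hmem s).mp hs) t ((hmem t).mp ht) (Or.inr h.symm)
    subst hst
    apply (hf s ((hmem s).mp hs)).2.2
    have := congrArg Prod.fst h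
    simp at this
    exact this.symm
  have hsub : S'.image f ∪ S'.image (fun s => (f s).swap) ⊆ T := by
    intro x hx
    rw [mem_union, mem_image, mem_image] at hx
    rcases hx with ⟨s, hs, rfl⟩ | ⟨s, hs, rfl⟩
    · exact (hf s ((hmem s).mp hs)).1
    · exact (hf s ((hmem s).mp hs)).2.1
  have hc := Finset.card_le_card hsub
  rw [Finset.card_union_of_disjoint hd, hA, hB] at hc
  rw [Set.ncard_eq_toFinset_card S hfin, ← hS']
  omega

/-- The set of points `(x, y)` of the plane with `a x + b y = c`. -/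
def Line (a b c : ℝ) : Set (ℝ × ℝ) := {p | a * p.1 + b * p.2 = c}

open scoped Classical in
/-- `L` is a bisector (halving line) of `P`: a line through two points of `P` such that each of
the two open half-planes bounded by it contains exactly `|P| / 2 - 1` points of `P`. -/
def IsBisector (P : Finset (ℝ × ℝ)) (L : Set (ℝ × ℝ)) : Prop :=
  ∃ a b c : ℝ, (a ≠ 0 ∨ b ≠ 0) ∧ L = Line a b c ∧
    (∃ p ∈ P, ∃ q ∈ P, p ≠ q ∧ p ∈ L ∧ q ∈ L) ∧
    (P.filter (fun p => a * p.1 + b * p.2 < c)).card = P.card / 2 - 1 ∧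
    (P.filter (fun p => c < a * p.1 + b * p.2)).card = P.card / 2 - 1

open scoped Classical in
/-- `L` is a line through two points of `P` such that one of the two open half-planes bounded by
it contains exactly `k` points of `P`. -/
def IsKLine (P : Finset (ℝ × ℝ)) (k : ℕ) (L : Set (ℝ × ℝ)) : Prop :=
  ∃ a b c : ℝ, (a ≠ 0 ∨ b ≠ 0) ∧ L = Line a b c ∧
    (∃ p ∈ P, ∃ q ∈ P, p ≠ q ∧ p ∈ L ∧ q ∈ L) ∧
    (P.filter (fun p => c < a * p.1 + b * p.2)).card = k

lemma line_unique {a b c a' b' c' : ℝ} (h : a ≠ 0 ∨ b ≠ 0) (h' : a' ≠ 0 ∨ b' ≠ 0)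
    {p q : ℝ × ℝ} (hpq : p ≠ q) (hp : p ∈ Line a b c) (hq : q ∈ Line a b c)
    (hp' : p ∈ Line a' b' c') (hq' : q ∈ Line a' b' c') : Line a b c = Line a' b' c' := by
  have key : ∀ {a b c a' b' c' : ℝ}, (a ≠ 0 ∨ b ≠ 0) → (a' ≠ 0 ∨ b' ≠ 0) →
      p ∈ Line a b c → q ∈ Line a b c → p ∈ Line a' b' c' → q ∈ Line a' b' c' →
      Line a b c ⊆ Line a' b' c' := by
    intro a b c a' b' c' h h' hp hq hp' hq' r hr
    simp only [Line, Set.mem_ofPred_eq] at hp hq hp' hq' hr ⊢
    have e1 : a * (p.1 - q.1) + b * (p.2 - q.2) = 0 := by linarith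
    have e2 : a' * (p.1 - q.1) + b' * (p.2 - q.2) = 0 := by linarith
    have e3 : a * (r.1 - p.1) + b * (r.2 - p.2) = 0 := by linarith
    -- determinant
    have hdet : a * b' - a' * b = 0 := by
      by_contra hne
      apply hpq
      have f1 : (a * b' - a' * b) * (p.1 - q.1) = 0 := by linear_combination b' * e1 - b * e2
      have f2 : (a * b' - a' * b) * (p.2 - q.2) = 0 := by linear_combination a * e2 - a' * e1
      have g1 := (mul_eq_zero.mp f1).resolve_left hne
      have g2 := (mul_eq_zero.mp f2).resolve_left hne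
      exact Prod.ext (by linarith) (by linarith)
    have e4 : a' * (r.1 - p.1) + b' * (r.2 - p.2) = 0 := by
      rcases h with h | h
      · have : a * (a' * (r.1 - p.1) + b' * (r.2 - p.2)) = 0 := by
          linear_combination a' * e3 + (r.2 - p.2) * hdet
        exact (mul_eq_zero.mp this).resolve_left h
      · have : b * (a' * (r.1 - p.1) + b' * (r.2 - p.2)) = 0 := by
          linear_combination b' * e3 - (r.1 - p.1) * hdet
        exact (mul_eq_zero.mp this).resolve_left h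
    linarith
  exact Set.Subset.antisymm (key h h' hp hq hp' hq') (key h' h hp' hq' hp hq)

open scoped Classical in
theorem kline_bound {m : ℕ} (hm : 1 ≤ m) {ξ : ℂ} (hξ : IsPrimitiveRoot ξ m)
    {P R : Finset (ℝ × ℝ)} {e : (ℝ × ℝ) ≃ₗ[ℝ] ℂ} {o : ℝ × ℝ} (hR : Inv R ξ e o) {t : ℕ}
    (ht : (P \ R).card + (R \ P).card ≤ t) (k : ℕ) :
    m * {L | IsKLine P k L}.ncard ≤ 7 * (P.card + t) ^ 2 + 5 * (m * t * (P.card + t)) := by
  have hch : ∀ L : Set (ℝ × ℝ), ∃ x : (ℝ × ℝ) × (ℝ × ℝ), IsKLine P k L →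
      x ∈ V P k ∧ x.swap ∈ V P k ∧ x.1 ≠ x.2 ∧ x.1 ∈ L ∧ x.2 ∈ L := by
    intro L
    by_cases hL : IsKLine P k L
    · obtain ⟨a, b, c, hab, rfl, ⟨p, hp, q, hq, hpq, hpL, hqL⟩, hk⟩ := hL
      have hlt : k < (P.filter (fun z => c ≤ a * z.1 + b * z.2)).card := by
        rw [← hk]
        apply Finset.card_lt_card
        rw [Finset.ssubset_iff_of_subset]
        · refine ⟨p, ?_, ?_⟩
          · rw [mem_filter]
            exact ⟨hp, le_of_eq hpL.symm⟩
          · rw [mem_filter]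
            rintro ⟨-, h⟩
            have : a * p.1 + b * p.2 = c := hpL
            linarith
        · intro x hx
          rw [mem_filter] at hx ⊢
          exact ⟨hx.1, hx.2.le⟩
      refine ⟨(p, q), fun _ => ⟨?_, ?_, hpq, hpL, hqL⟩⟩
      · unfold V
        rw [mem_filter, mem_product]
        exact ⟨⟨hp, hq⟩, hpq, a, b, c, hab, hpL, hqL, hk.le, hlt⟩
      · unfold V
        rw [mem_filter, mem_product]
        exact ⟨⟨hq, hp⟩, hpq.symm, a, b, c, hab, hqL, hpL, hk.le, hlt⟩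
    · exact ⟨((0, 0), (0, 0)), fun h => absurd h hL⟩
  choose f hf using hch
  have h2 := two_mul_le {L | IsKLine P k L} (V P k) f
    (fun L hL => ⟨(hf L hL).1, (hf L hL).2.1, (hf L hL).2.2.1⟩) (by
      intro L hL M hM h
      obtain ⟨-, -, h1, h2, h3⟩ := hf L hL
      obtain ⟨-, -, -, h5, h6⟩ := hf M hM
      obtain ⟨a, b, c, hab, hLe, -, -⟩ := hL
      obtain ⟨a', b', c', hab', hMe, -, -⟩ := hM
      have hs1 : (f L).1 ∈ M ∧ (f L).2 ∈ M := by
        rcases h with h | h
        · rw [h]; exact ⟨h5, h6⟩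
        · rw [h]; exact ⟨h6, h5⟩
      have e1 : (f L).1 ∈ Line a b c := by rw [← hLe]; exact h2
      have e2 : (f L).2 ∈ Line a b c := by rw [← hLe]; exact h3
      have e3 : (f L).1 ∈ Line a' b' c' := by rw [← hMe]; exact hs1.1
      have e4 : (f L).2 ∈ Line a' b' c' := by rw [← hMe]; exact hs1.2
      rw [hLe, hMe]
      exact line_unique hab hab' h1 e1 e2 e3 e4)
  have h3 := V_bound hm hξ hR ht k
  have : 2 * (m * {L | IsKLine P k L}.ncard) ≤
      2 * (7 * (P.card + t) ^ 2 + 5 * (m * t * (P.card + t))) := by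
    calc 2 * (m * {L | IsKLine P k L}.ncard) = m * (2 * {L | IsKLine P k L}.ncard) := by ring
      _ ≤ m * (V P k).card := Nat.mul_le_mul_left _ h2
      _ ≤ 14 * (P.card + t) ^ 2 + 10 * (m * t * (P.card + t)) := h3
      _ = 2 * (7 * (P.card + t) ^ 2 + 5 * (m * t * (P.card + t))) := by ring
  omega

lemma kline_finite (P : Finset (ℝ × ℝ)) (k : ℕ) : {L | IsKLine P k L}.Finite := by
  classical
  have hsub : {L | IsKLine P k L} ⊆ (fun x : (ℝ × ℝ) × (ℝ × ℝ) =>
      Line (x.2.2 - x.1.2) (x.1.1 - x.2.1)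
        ((x.2.2 - x.1.2) * x.1.1 + (x.1.1 - x.2.1) * x.1.2)) '' ((P ×ˢ P : Finset _) : Set _) := by
    rintro L ⟨a, b, c, hab, rfl, ⟨p, hp, q, hq, hpq, hpL, hqL⟩, -⟩
    refine ⟨(p, q), by simp [hp, hq], ?_⟩
    refine line_unique ?_ hab hpq ?_ ?_ hpL hqL
    · simp only
      by_contra h
      push Not at h
      exact hpq (Prod.ext (by linarith [h.2]) (by linarith [h.1]))
    · simp only [Line, Set.mem_ofPred_eq]
    · simp only [Line, Set.mem_ofPred_eq]; ring
  exact ((Finset.finite_toSet _).image _).subset hsub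

open scoped Classical in
theorem bisector_bound {m : ℕ} (hm : 1 ≤ m) {ξ : ℂ} (hξ : IsPrimitiveRoot ξ m)
    {P R : Finset (ℝ × ℝ)} {e : (ℝ × ℝ) ≃ₗ[ℝ] ℂ} {o : ℝ × ℝ} (hR : Inv R ξ e o) {t : ℕ}
    (ht : (P \ R).card + (R \ P).card ≤ t) :
    m * {L | IsBisector P L}.ncard ≤ 7 * (P.card + t) ^ 2 + 5 * (m * t * (P.card + t)) := by
  have hsub : {L | IsBisector P L} ⊆ {L | IsKLine P (P.card / 2 - 1) L} := by
    rintro L ⟨a, b, c, hab, hL, hpq, -, h2⟩
    exact ⟨a, b, c, hab, hL, hpq, h2⟩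
  refine le_trans (Nat.mul_le_mul_left _ (Set.ncard_le_ncard hsub (kline_finite P _))) ?_
  exact kline_bound hm hξ hR ht _

end Pool.Agent.R117.KR
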