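import Pool.Agent.R117.KR.Count

/-!
# Finite planar sets with an affine symmetry of order `m`: the lines with `k` points on one side
-/

set_option autoImplicit false

namespace Pool.Agent.R117.KR

open Finset

open scoped Classical in
/-- the ordered pairs of distinct points of `P` on lines with at most `k` points strictly on one
side and more than `k` points weakly on the same side -/
noncomputable def W (P : Finset ℂ) (k : ℕ) : Finset (ℂ × ℂ) :=
  (P ×ˢ P).filter (fun x => x.1 ≠ x.2 ∧ ∃ v : ℂ, v ≠ 0 ∧ psi v x.1 = psi v x.2 ∧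
    (P.filter (fun z => psi v x.1 < psi v z)).card ≤ k ∧
    k < (P.filter (fun z => psi v x.1 ≤ psi v z)).card)

lemma psi_div (v z : ℂ) : psi (v / (‖v‖ : ℂ)) z = psi v z / ‖v‖ := by
  unfold psi
  rw [map_div₀, Complex.conj_ofReal, mul_div_assoc', Complex.div_ofReal_re]

open scoped Classical in
lemma le_card {m : ℕ} (hm : 1 ≤ m) {P : Finset ℂ} (hP : ∀ z ∈ P, zt m * z ∈ P)
    (h0 : ∀ z ∈ P, z ≠ 0) (hne : P.Nonempty) : m ≤ P.card := by
  obtain ⟨z, hz⟩ := hne
  have hprim : IsPrimitiveRoot (zt m) m := Complex.isPrimitiveRoot_exp m (by omega)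
  have hsub : (range m).image (fun k => zt m ^ k * z) ⊆ P := by
    intro w hw
    rw [mem_image] at hw
    obtain ⟨k, -, rfl⟩ := hw
    have := image_pow hP k
    rw [← this]
    exact mem_image_of_mem _ hz
  have hc := Finset.card_le_card hsub
  rw [Finset.card_image_of_injOn, card_range] at hc
  · exact hc
  · intro i hi j hj hij
    have := mul_right_cancel₀ (h0 z hz) hij
    exact hprim.pow_inj (by simpa using hi) (by simpa using hj) this

open scoped Classical in
theorem W_bound {m : ℕ} (hm : 1 ≤ m) {P Q : Finset ℂ} (hQ : ∀ z ∈ Q, zt m * z ∈ Q) {t : ℕ}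
    (ht : (P \ Q).card + (Q \ P).card ≤ t) (k : ℕ) :
    m * (W P k).card ≤ 14 * (P.card + t) ^ 2 + 10 * (m * t * (P.card + t)) := by
  set Q' := Q.erase 0 with hQ'
  have hinv : ∀ z ∈ Q', zt m * z ∈ Q' := by
    intro z hz
    rw [hQ', mem_erase] at hz ⊢
    exact ⟨mul_ne_zero (zt_ne m) hz.1, hQ z hz.2⟩
  have h0 : ∀ z ∈ Q', z ≠ 0 := fun z hz => (mem_erase.mp hz).1
  have hb := bad_bound hm hinv h0 k t
  set B := (Q' ×ˢ Q').filter (fun x => ∃ (u : ℂ) (d : ℝ), ‖u‖ = 1 ∧ psi u x.1 = d ∧
    psi u x.2 = d ∧ (Q'.filter (fun z => d < psi u z)).card ≤ k + t ∧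
      k ≤ (Q'.filter (fun z => d ≤ psi u z)).card + t) with hB
  set D := P \ Q' with hD
  have hDc : D.card ≤ t + 1 := by
    have : D ⊆ insert 0 (P \ Q) := by
      intro z hz
      rw [hD, mem_sdiff, hQ', mem_erase] at hz
      rw [mem_insert, mem_sdiff]
      by_cases h : z = 0
      · left; exact h
      · right; exact ⟨hz.1, fun h' => hz.2 ⟨h, h'⟩⟩
    have := (Finset.card_le_card this).trans (Finset.card_insert_le _ _)
    omega
  have hsub : W P k ⊆ B ∪ (D ×ˢ P ∪ P ×ˢ D) := by
    rintro ⟨p, q⟩ hx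
    unfold W at hx
    rw [mem_filter, mem_product] at hx
    obtain ⟨⟨hp, hq⟩, hpq, v, hv, h1, h2, h3⟩ := hx
    simp only at hp hq hpq h1 h2 h3
    rw [mem_union, mem_union]
    by_cases hp0 : p ∈ Q'
    swap
    · right; left
      rw [mem_product]
      exact ⟨mem_sdiff.mpr ⟨hp, hp0⟩, hq⟩
    by_cases hq0 : q ∈ Q'
    swap
    · right; right
      rw [mem_product]
      exact ⟨hp, mem_sdiff.mpr ⟨hq, hq0⟩⟩
    left
    have hvn : 0 < ‖v‖ := norm_pos_iff.mpr hv
    rw [hB, mem_filter, mem_product]
    refine ⟨⟨hp0, hq0⟩, v / (‖v‖ : ℂ),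
      psi v p / ‖v‖, ?_, psi_div v p, ?_, ?_, ?_⟩
    · rw [norm_div, Complex.norm_real, Real.norm_of_nonneg hvn.le, div_self hvn.ne']
    · rw [psi_div, h1]
    · have hs : Q'.filter (fun z => psi v p / ‖v‖ < psi (v / (‖v‖ : ℂ)) z) ⊆
          P.filter (fun z => psi v p < psi v z) ∪ (Q \ P) := by
        intro z hz
        rw [mem_filter] at hz
        rw [mem_union]
        have hzQ := (mem_erase.mp hz.1).2
        by_cases hzP : z ∈ P
        · left
          rw [mem_filter]
          refine ⟨hzP, ?_⟩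
          have := hz.2
          rw [psi_div] at this
          exact (div_lt_div_iff_of_pos_right hvn).mp this
        · right
          exact mem_sdiff.mpr ⟨hzQ, hzP⟩
      have hc := (Finset.card_le_card hs).trans (Finset.card_union_le _ _)
      omega
    · have hs : P.filter (fun z => psi v p ≤ psi v z) ⊆
          insert 0 (Q'.filter (fun z => psi v p / ‖v‖ ≤ psi (v / (‖v‖ : ℂ)) z) ∪ (P \ Q)) := by
        intro z hz
        rw [mem_filter] at hz
        rw [mem_insert, mem_union]
        by_cases hz0 : z = 0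
        · left; exact hz0
        · right
          by_cases hzQ : z ∈ Q
          · left
            rw [mem_filter]
            refine ⟨mem_erase.mpr ⟨hz0, hzQ⟩, ?_⟩
            rw [psi_div]
            exact (div_le_div_iff_of_pos_right hvn).mpr hz.2
          · right
            exact mem_sdiff.mpr ⟨hz.1, hzQ⟩
      have hc := (Finset.card_le_card hs).trans (Finset.card_insert_le _ _)
      have hc2 := Finset.card_union_le
        (Q'.filter (fun z => psi v p / ‖v‖ ≤ psi (v / (‖v‖ : ℂ)) z)) (P \ Q)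
      omega
  have hcard := (Finset.card_le_card hsub).trans ((Finset.card_union_le _ _).trans
    (Nat.add_le_add_left (Finset.card_union_le _ _) _))
  rw [Finset.card_product, Finset.card_product] at hcard
  have hle : Q'.card ≤ P.card + t := by
    have h1 : Q'.card ≤ Q.card := Finset.card_le_card (Finset.erase_subset _ _)
    have h2 : Q ⊆ P ∪ (Q \ P) := by
      intro z hz
      rw [mem_union, mem_sdiff]
      by_cases h : z ∈ P
      · left; exact h
      · right; exact ⟨hz, h⟩
    have h3 := (Finset.card_le_card h2).trans (Finset.card_union_le _ _)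
    omega
  set N := P.card + t with hN
  have hPN : P.card ≤ N := by omega
  rcases Q'.eq_empty_or_nonempty with he | hne
  · have hP1 : P.card ≤ t + 1 := by
      have : D = P := by rw [hD, he]; simp
      rw [this] at hDc
      exact hDc
    have hW : (W P k).card ≤ P.card * t := by
      have h1 : W P k ⊆ P.offDiag := by
        intro x hx
        unfold W at hx
        rw [mem_filter, mem_product] at hx
        rw [mem_offDiag]
        exact ⟨hx.1.1, hx.1.2, hx.2.1⟩
      have h2 := Finset.card_le_card h1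
      rw [Finset.offDiag_card] at h2
      have h3 : P.card * P.card - P.card ≤ P.card * t := by
        rw [Nat.sub_le_iff_le_add]
        calc P.card * P.card ≤ P.card * (t + 1) := Nat.mul_le_mul_left _ hP1
          _ = P.card * t + P.card := by ring
      omega
    calc m * (W P k).card ≤ m * (P.card * t) := Nat.mul_le_mul_left _ hW
      _ ≤ m * (N * t) := by gcongr
      _ = m * t * N := by ring
      _ ≤ 14 * N ^ 2 + 10 * (m * t * N) := by omega
  · have hmn : m ≤ N := (le_card hm hinv h0 hne).trans hle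
    have h4 : (W P k).card ≤ B.card + 2 * ((t + 1) * P.card) := by
      have h5 : D.card * P.card ≤ (t + 1) * P.card := Nat.mul_le_mul_right _ hDc
      have h6 : P.card * D.card ≤ (t + 1) * P.card := by rw [mul_comm]; exact h5
      omega
    calc m * (W P k).card ≤ m * (B.card + 2 * ((t + 1) * P.card)) := Nat.mul_le_mul_left _ h4
      _ = m * B.card + 2 * (m * t * P.card) + 2 * (m * P.card) := by ring
      _ ≤ (12 * Q'.card ^ 2 + 8 * (m * Q'.card * t)) + 2 * (m * t * P.card) +
          2 * (m * P.card) := by omega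
      _ ≤ (12 * N ^ 2 + 8 * (m * N * t)) + 2 * (m * t * N) + 2 * (N * N) := by gcongr
      _ = 14 * N ^ 2 + 10 * (m * t * N) := by ring

/-- invariance under one primitive root of unity gives invariance under all -/
lemma inv_of_primitive {m : ℕ} (hm : 1 ≤ m) {ξ : ℂ} (hξ : IsPrimitiveRoot ξ m) {P : Finset ℂ}
    (hP : ∀ z ∈ P, ξ * z ∈ P) : ∀ z ∈ P, zt m * z ∈ P := by
  have hprim : IsPrimitiveRoot (zt m) m := Complex.isPrimitiveRoot_exp m (by omega)
  have : NeZero m := ⟨by omega⟩
  obtain ⟨i, -, hi⟩ := hξ.eq_pow_of_pow_eq_one hprim.pow_eq_one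
  have hpow : ∀ i : ℕ, ∀ z ∈ P, ξ ^ i * z ∈ P := by
    intro i
    induction i with
    | zero => intro z hz; simpa using hz
    | succ i ih =>
      intro z hz
      rw [pow_succ, mul_comm (ξ ^ i) ξ, mul_assoc]
      exact hP _ (ih z hz)
  intro z hz
  rw [← hi]
  exact hpow i z hz

open scoped Classical in
/-- the ordered pairs of distinct points of the planar set `P` on lines with at most `k` points
strictly on one side and more than `k` points weakly on this side -/
noncomputable def V (P : Finset (ℝ × ℝ)) (k : ℕ) : Finset ((ℝ × ℝ) × (ℝ × ℝ)) :=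
  (P ×ˢ P).filter (fun x => x.1 ≠ x.2 ∧ ∃ a b c : ℝ, (a ≠ 0 ∨ b ≠ 0) ∧
    a * x.1.1 + b * x.1.2 = c ∧ a * x.2.1 + b * x.2.2 = c ∧
    (P.filter (fun z => c < a * z.1 + b * z.2)).card ≤ k ∧
    k < (P.filter (fun z => c ≤ a * z.1 + b * z.2)).card)

/-- the invariance of `P` under the affine map with centre `o` which is conjugate by `e` to the
multiplication with `ξ` -/
def Inv (P : Finset (ℝ × ℝ)) (ξ : ℂ) (e : (ℝ × ℝ) ≃ₗ[ℝ] ℂ) (o : ℝ × ℝ) : Prop :=
  ∀ p ∈ P, o + e.symm (ξ * e (p - o)) ∈ P

open scoped Classical in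
theorem V_bound {m : ℕ} (hm : 1 ≤ m) {ξ : ℂ} (hξ : IsPrimitiveRoot ξ m)
    {P R : Finset (ℝ × ℝ)} {e : (ℝ × ℝ) ≃ₗ[ℝ] ℂ} {o : ℝ × ℝ} (hR : Inv R ξ e o) {t : ℕ}
    (ht : (P \ R).card + (R \ P).card ≤ t) (k : ℕ) :
    m * (V P k).card ≤ 14 * (P.card + t) ^ 2 + 10 * (m * t * (P.card + t)) := by
  set φ : ℝ × ℝ → ℂ := fun p => e (p - o) with hφ
  have hφi : Function.Injective φ := by
    intro p q h
    have := e.injective h
    simpa using this
  set Q : Finset ℂ := P.image φ with hQ
  have hQc : Q.card = P.card := Finset.card_image_of_injective _ hφi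
  set R' : Finset ℂ := R.image φ with hR'
  have hQi : ∀ z ∈ R', ξ * z ∈ R' := by
    intro z hz
    rw [hR', mem_image] at hz
    obtain ⟨p, hp, rfl⟩ := hz
    rw [hR', mem_image]
    refine ⟨_, hR p hp, ?_⟩
    simp [hφ]
  have ht' : (Q \ R').card + (R' \ Q).card ≤ t := by
    rw [hQ, hR', ← Finset.image_sdiff _ _ hφi, ← Finset.image_sdiff _ _ hφi,
      Finset.card_image_of_injective _ hφi, Finset.card_image_of_injective _ hφi]
    exact ht
  have hW := W_bound hm (inv_of_primitive hm hξ hQi) ht' k
  rw [hQc] at hW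
  refine le_trans (Nat.mul_le_mul_left _ ?_) hW
  have hinj : Function.Injective (fun x : (ℝ × ℝ) × (ℝ × ℝ) => (φ x.1, φ x.2)) := by
    intro x y h
    simp only [Prod.mk.injEq] at h
    exact Prod.ext (hφi h.1) (hφi h.2)
  rw [← Finset.card_image_of_injective (V P k) hinj]
  apply Finset.card_le_card
  rintro w hw
  rw [mem_image] at hw
  obtain ⟨⟨p, q⟩, hx, rfl⟩ := hw
  unfold V at hx
  rw [mem_filter, mem_product] at hx
  obtain ⟨⟨hp, hq⟩, hpq, a, b, c, hab, h1, h2, h3, h4⟩ := hx
  simp only at hp hq hpq h1 h2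
  -- the functional on the complex plane
  set Lf : ℂ → ℝ := fun z => a * (e.symm z).1 + b * (e.symm z).2 with hLf
  set v : ℂ := ⟨Lf 1, Lf Complex.I⟩ with hv
  have hLv : ∀ z, Lf z = psi v z := by
    intro z
    have hz : z = (z.re : ℝ) • (1 : ℂ) + (z.im : ℝ) • Complex.I := by
      apply Complex.ext <;> simp
    have : Lf z = z.re * Lf 1 + z.im * Lf Complex.I := by
      have h5 : e.symm z = z.re • e.symm 1 + z.im • e.symm Complex.I := by
        conv_lhs => rw [hz]
        rw [map_add, map_smul, map_smul]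
      simp only [hLf]
      rw [h5]
      simp only [Prod.fst_add, Prod.snd_add, Prod.smul_fst, Prod.smul_snd, smul_eq_mul]
      ring
    rw [this]
    unfold psi
    simp [hv, Complex.mul_re]
  have hv0 : v ≠ 0 := by
    intro h0
    have hz : ∀ z, Lf z = 0 := by
      intro z
      rw [hLv, h0]
      simp [psi]
    have ha := hz (e (1, 0))
    have hb := hz (e (0, 1))
    simp [hLf] at ha hb
    rcases hab with h | h
    · exact h ha
    · exact h hb
  have hval : ∀ x : ℝ × ℝ, psi v (φ x) = a * x.1 + b * x.2 - (a * o.1 + b * o.2) := by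
    intro x
    rw [← hLv]
    simp only [hLf, hφ, LinearEquiv.symm_apply_apply, Prod.fst_sub, Prod.snd_sub]
    ring
  unfold W
  rw [mem_filter, mem_product]
  refine ⟨⟨mem_image_of_mem φ hp, mem_image_of_mem φ hq⟩, fun h => hpq (hφi h), v, hv0, ?_, ?_, ?_⟩
  · simp only [hval]
    linarith
  · refine le_trans (le_of_eq ?_) h3
    rw [hQ, Finset.filter_image, Finset.card_image_of_injective _ hφi]
    congr 1
    apply Finset.filter_congr
    intro x _
    simp only [hval]
    constructor <;> intro h <;> linarith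
  · refine lt_of_lt_of_le h4 (le_of_eq ?_)
    rw [hQ, Finset.filter_image, Finset.card_image_of_injective _ hφi]
    congr 1
    apply Finset.filter_congr
    intro x _
    simp only [hval]
    constructor <;> intro h <;> linarith

end Pool.Agent.R117.KR
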